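import Mathlib.Data.Set.Card

set_option autoImplicit false

namespace Pool.Agent.MP_bb7684_lc

/-- A `d`-dimensional VASS over the alphabet `A` with state type `Q`. -/
structure VASS (A : Type) (d : ℕ) (Q : Type) where
  /-- the finite set of transitions `(q, a, u, q')` -/
  T : Finset (Q × A × (Fin d → ℤ) × Q)
  /-- initial state -/
  q0 : Q
  /-- initial counter values -/
  c0 : Fin d → ℕ
  /-- accepting states -/
  F : Set Q

/-- `Run V q v ρ p w`: the transitions of `ρ` fire in turn from `q(v)` and lead to `p(w)`. -/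
inductive Run {A : Type} {d : ℕ} {Q : Type} (V : VASS A d Q) :
    Q → (Fin d → ℕ) → List (Q × A × (Fin d → ℤ) × Q) → Q → (Fin d → ℕ) → Prop
  | nil (q : Q) (v : Fin d → ℕ) : Run V q v [] q v
  | cons {q q' p : Q} {a : A} {u : Fin d → ℤ} {v v' w : Fin d → ℕ}
      {ρ : List (Q × A × (Fin d → ℤ) × Q)} :
      (q, a, u, q') ∈ V.T → (∀ i, (v' i : ℤ) = v i + u i) → Run V q' v' ρ p w →
      Run V q v ((q, a, u, q') :: ρ) p w

/-- The accepting runs of `V` on the word `x`. -/
def accRuns {A : Type} {d : ℕ} {Q : Type} (V : VASS A d Q) (x : List A) :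
    Set (List (Q × A × (Fin d → ℤ) × Q)) :=
  {ρ | ρ.map (fun t => t.2.1) = x ∧ ∃ p ∈ V.F, ∃ w, Run V V.q0 V.c0 ρ p w}

/-- `L` is recognised by a `k`-ambiguous VASS of some dimension with finitely many states. -/
def IsAmbLang {A : Type} (k : ℕ) (L : Set (List A)) : Prop :=
  ∃ (d : ℕ) (Q : Type) (_ : Finite Q) (V : VASS A d Q),
    {x | (accRuns V x).Nonempty} = L ∧ ∀ x, (accRuns V x).encard ≤ k

end Pool.Agent.MP_bb7684_lc
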