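import Mathlib.Logic.Equiv.PartialEquiv
import Mathlib.Topology.Sheaves.Presheaf
import Mathlib.Tactic.ENatToNat
import Mathlib.Tactic.Monotonicity.Lemmas
import Mathlib.Algebra.Order.Ring.Star
import Mathlib.Tactic.Bound
import Mathlib.Order.Interval.Finset.Box
import Mathlib.Order.CompletePartialOrder
import Mathlib.RingTheory.WittVector.IsPoly
import Mathlib.Tactic.ReduceModChar
import Pool.Agent.MP_bb7684_lc.Defs

-- ======== part 0: formerly Pool.Agent.MP_bb7684_lc.Emb
section MrgPart0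

set_option autoImplicit false

namespace Pool.Agent.MP_bb7684_lc

/-- Number of letters `false` in the block after exactly `r` letters `true`. -/
def cnt : List Bool → ℕ → ℕ
  | [], _ => 0
  | false :: w, r => cnt w r + if r = 0 then 1 else 0
  | true :: _, 0 => 0
  | true :: w, r + 1 => cnt w r

/-- Number of letters `true`. -/
def nb : List Bool → ℕ
  | [] => 0
  | false :: w => nb w
  | true :: w => nb w + 1

lemma word_ext : ∀ (w w' : List Bool), nb w = nb w' → (∀ r, cnt w r = cnt w' r) → w = w'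
  | [], [], _, _ => rfl
  | [], false :: w', _, h => by have := h 0; simp [cnt] at this
  | [], true :: w', h, _ => by simp [nb] at h
  | false :: w, [], _, h => by have := h 0; simp [cnt] at this
  | true :: w, [], h, _ => by simp [nb] at h
  | false :: w, true :: w', _, h => by have := h 0; simp [cnt] at this
  | true :: w, false :: w', _, h => by have := h 0; simp [cnt] at this
  | false :: w, false :: w', h1, h => by
      rw [word_ext w w' (by simpa [nb] using h1) (fun r => by simpa [cnt] using h r)]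
  | true :: w, true :: w', h1, h => by
      rw [word_ext w w' (by simpa [nb] using h1) (fun r => by simpa [cnt] using h (r + 1))]

variable {d : ℕ} {Q : Type} {V : VASS Bool d Q}

/-- The word read by a list of transitions. -/
abbrev lab (ρ : List (Q × Bool × (Fin d → ℤ) × Q)) : List Bool := ρ.map (fun t => t.2.1)

/-- Embedding of a run in another one, the extra transitions reading `false`. -/
inductive Emb (V : VASS Bool d Q) : Q → (Fin d → ℕ) → List (Q × Bool × (Fin d → ℤ) × Q) →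
    Q → (Fin d → ℕ) → List (Q × Bool × (Fin d → ℤ) × Q) → Prop
  | nil {q : Q} {v v' : Fin d → ℕ} : v ≤ v' → Emb V q v [] q v' []
  | both {q q' : Q} {a : Bool} {u : Fin d → ℤ} {v v' w w' : Fin d → ℕ}
      {ρ ρ' : List (Q × Bool × (Fin d → ℤ) × Q)} :
      (q, a, u, q') ∈ V.T → v ≤ v' → (∀ i, (w i : ℤ) = v i + u i) →
      (∀ i, (w' i : ℤ) = v' i + u i) → Emb V q' w ρ q' w' ρ' →
      Emb V q v ((q, a, u, q') :: ρ) q v' ((q, a, u, q') :: ρ')
  | skip {q p p' : Q} {u : Fin d → ℤ} {v v' w' : Fin d → ℕ}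
      {ρ ρ' : List (Q × Bool × (Fin d → ℤ) × Q)} :
      (p, false, u, p') ∈ V.T → (∀ i, (w' i : ℤ) = v' i + u i) → Emb V q v ρ p' w' ρ' →
      Emb V q v ρ p v' ((p, false, u, p') :: ρ')

lemma step_unique {v w w' : Fin d → ℕ} {u : Fin d → ℤ} (h : ∀ i, (w i : ℤ) = v i + u i)
    (h' : ∀ i, (w' i : ℤ) = v i + u i) : w = w' := by
  funext i
  have := h i
  have := h' i
  omega

lemma step_add {v w : Fin d → ℕ} {u : Fin d → ℤ} (h : ∀ i, (w i : ℤ) = v i + u i)
    (δ : Fin d → ℕ) : ∀ i, ((w + δ) i : ℤ) = (v + δ) i + u i := by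
  intro i
  have := h i
  simp only [Pi.add_apply, Nat.cast_add]
  omega

lemma Emb.run_left {q p : Q} {v v' : Fin d → ℕ} {ρ ρ'} (h : Emb V q v ρ p v' ρ') :
    ∃ f w, Run V q v ρ f w := by
  induction h with
  | nil _ => exact ⟨_, _, Run.nil _ _⟩
  | both ht _ hw _ _ ih =>
    obtain ⟨f, w, h⟩ := ih
    exact ⟨f, w, Run.cons ht hw h⟩
  | skip _ _ _ ih => exact ih

lemma Emb.run_right {q p : Q} {v v' : Fin d → ℕ} {ρ ρ'} (h : Emb V q v ρ p v' ρ') :
    ∀ {f w}, Run V q v ρ f w → ∃ w', Run V p v' ρ' f w' := by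
  induction h with
  | nil _ =>
    intro f w h
    cases h
    exact ⟨_, Run.nil _ _⟩
  | both ht _ hw hw' _ ih =>
    intro f x h
    cases h with
    | cons _ h2 h3 =>
      obtain rfl := step_unique hw h2
      obtain ⟨y, hy⟩ := ih h3
      exact ⟨y, Run.cons ht hw' hy⟩
  | skip ht hw _ ih =>
    intro f x h
    obtain ⟨y, hy⟩ := ih h
    exact ⟨y, Run.cons ht hw hy⟩

lemma Emb.nb_eq {q p : Q} {v v' : Fin d → ℕ} {ρ ρ'} (h : Emb V q v ρ p v' ρ') :
    nb (lab ρ') = nb (lab ρ) := by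
  induction h with
  | nil _ => rfl
  | @both _ _ a _ _ _ _ _ _ _ _ _ _ _ _ ih =>
    cases a <;> simp only [lab, List.map_cons, nb] <;> simpa [lab] using ih
  | skip _ _ _ ih => simpa [lab, nb] using ih

lemma Run.emb_self {q f : Q} {v w : Fin d → ℕ} {ρ} (h : Run V q v ρ f w) :
    ∀ δ, Emb V q v ρ q (v + δ) ρ := by
  induction h with
  | nil q v => exact fun δ => Emb.nil le_self_add
  | cons ht hw _ ih => exact fun δ => Emb.both ht le_self_add hw (step_add hw δ) (ih δ)

lemma Emb.trans {p r : Q} {v' v'' : Fin d → ℕ} {ρ' ρ''} (h2 : Emb V p v' ρ' r v'' ρ'') :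
    ∀ {q v ρ}, Emb V q v ρ p v' ρ' → Emb V q v ρ r v'' ρ'' := by
  induction h2 with
  | nil h =>
    intro q v ρ h1
    cases h1 with
    | nil h' => exact Emb.nil (h'.trans h)
  | both ht hle hw hw' _ ih =>
    intro q v ρ h1
    cases h1 with
    | both _ hle' hx hx' h1 =>
      obtain rfl := step_unique hw hx'
      exact Emb.both ht (hle'.trans hle) hx hw' (ih h1)
    | skip _ hx h1 =>
      obtain rfl := step_unique hw hx
      exact Emb.skip ht hw' (ih h1)
  | skip ht hw _ ih =>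
    intro q v ρ h1
    exact Emb.skip ht hw (ih h1)

lemma cnt_cons_add {a : Bool} {w₁ w₂ w₃ w₄ : List Bool}
    (h : ∀ r, cnt w₁ r + cnt w₂ r = cnt w₃ r + cnt w₄ r) :
    ∀ r, cnt (a :: w₁) r + cnt (a :: w₂) r = cnt (a :: w₃) r + cnt (a :: w₄) r := by
  intro r
  cases a
  · have := h r
    simp only [cnt]; omega
  · cases r with
    | zero => simp [cnt]
    | succ r => simpa [cnt] using h r

/-- Amalgamation of two embeddings of the same run. -/
lemma Emb.amalg {q p : Q} {v v₁ : Fin d → ℕ} {ρ ρ₁} (h : Emb V q v ρ p v₁ ρ₁) :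
    ∀ δ ρ₂, Emb V q v ρ q (v + δ) ρ₂ → ∃ ρ₃, Emb V p v₁ ρ₁ p (v₁ + δ) ρ₃ ∧
      ∀ r, cnt (lab ρ₃) r + cnt (lab ρ) r = cnt (lab ρ₁) r + cnt (lab ρ₂) r := by
  induction h with
  | @nil q v v₁ hle =>
    obtain ⟨ε, rfl⟩ := exists_add_of_le hle
    have key : ∀ {ρ p₂ v₂ ρ₂}, Emb V q v ρ p₂ v₂ ρ₂ → ρ = [] →
        Emb V q (v + ε) [] p₂ (v₂ + ε) ρ₂ := by
      intro ρ p₂ v₂ ρ₂ h
      induction h with
      | nil h => exact fun _ => Emb.nil (add_le_add_left h ε)
      | both => intro h; cases h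
      | skip ht hw _ ih => exact fun h => Emb.skip ht (step_add hw ε) (ih hle h)
    intro δ ρ₂ h2
    refine ⟨ρ₂, ?_, fun r => by simp [cnt]⟩
    rw [add_right_comm]
    exact key h2 rfl
  | @both q q' a u v v₁ w w₁ ρ ρ₁ ht hle hw hw₁ _ ih =>
    obtain ⟨ε, rfl⟩ := exists_add_of_le hle
    obtain rfl := step_unique hw₁ (step_add hw ε)
    have key : ∀ {q₀ v₀ ρ₀ p₂ v₂ ρ₂}, Emb V q₀ v₀ ρ₀ p₂ v₂ ρ₂ → q₀ = q → v₀ = v →
        ρ₀ = (q, a, u, q') :: ρ →
        ∃ ρ₃, Emb V q (v + ε) ((q, a, u, q') :: ρ₁) p₂ (v₂ + ε) ρ₃ ∧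
          ∀ r, cnt (lab ρ₃) r + cnt (lab ((q, a, u, q') :: ρ)) r =
            cnt (lab ((q, a, u, q') :: ρ₁)) r + cnt (lab ρ₂) r := by
      intro q₀ v₀ ρ₀ p₂ v₂ ρ₂ h
      induction h with
      | nil h => intro _ _ h; cases h
      | both _ hle' hx hx' h' _ =>
        intro h1 h2 h3
        cases h3
        subst h2
        obtain ⟨δ', rfl⟩ := exists_add_of_le hle'
        obtain rfl := step_unique hw hx
        obtain rfl := step_unique hx' (step_add hw δ')
        obtain ⟨ρ₃, h3, h4⟩ := ih δ' _ h'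
        refine ⟨_, Emb.both ht (add_le_add_left le_self_add ε) hw₁ ?_ h3, cnt_cons_add h4⟩
        rw [add_right_comm _ δ' ε]
        exact step_add hw₁ δ'
      | skip ht' hx _ ih' =>
        intro h1 h2 h3
        obtain ⟨ρ₃, h3, h4⟩ := ih' h1 h2 h3
        refine ⟨_, Emb.skip ht' (step_add hx ε) h3, fun r => ?_⟩
        have := h4 r
        simp only [lab, List.map_cons, cnt] at this ⊢
        omega
    intro δ ρ₂ h2
    rw [add_right_comm]
    exact key h2 rfl rfl rfl
  | skip ht hw _ ih =>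
    intro δ ρ₂ h2
    obtain ⟨ρ₃, h3, h4⟩ := ih δ ρ₂ h2
    refine ⟨_, Emb.both ht le_self_add hw (step_add hw δ) h3, fun r => ?_⟩
    have := h4 r
    simp only [lab, List.map_cons, cnt] at this ⊢
    omega

/-- Keep only the insertions made in the blocks up to `l`. -/
lemma Emb.trunc {q p : Q} {v v' : Fin d → ℕ} {ρ ρ'} (h : Emb V q v ρ p v' ρ') :
    ∀ l, ∃ ρ'', Emb V q v ρ p v' ρ'' ∧
      ∀ r, cnt (lab ρ'') r = if r ≤ l then cnt (lab ρ') r else cnt (lab ρ) r := by
  induction h with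
  | nil h => exact fun l => ⟨[], Emb.nil h, fun r => by simp⟩
  | @both q q' a u v v' w w' ρ ρ' ht hle hw hw' h ih =>
    intro l
    cases a
    · obtain ⟨ρ'', h1, h2⟩ := ih l
      refine ⟨_, Emb.both ht hle hw hw' h1, fun r => ?_⟩
      have := h2 r
      simp only [lab, List.map_cons, cnt] at this ⊢
      split_ifs at this ⊢ <;> omega
    · cases l with
      | zero =>
        obtain ⟨f, x, hr⟩ := h.run_left
        obtain ⟨ε, rfl⟩ := exists_add_of_le hle
        obtain rfl := step_unique hw' (step_add hw ε)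
        refine ⟨_, Emb.both ht hle hw hw' (hr.emb_self ε), fun r => ?_⟩
        cases r <;> simp [lab, cnt]
      | succ l =>
        obtain ⟨ρ'', h1, h2⟩ := ih l
        refine ⟨_, Emb.both ht hle hw hw' h1, fun r => ?_⟩
        cases r with
        | zero => simp [lab, cnt]
        | succ r => simpa [lab, cnt] using h2 r
  | skip ht hw _ ih =>
    intro l
    obtain ⟨ρ'', h1, h2⟩ := ih l
    refine ⟨_, Emb.skip ht hw h1, fun r => ?_⟩
    have := h2 r
    simp only [lab, List.map_cons, cnt] at this ⊢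
    split_ifs at this ⊢ <;> omega

/-- The order on runs from the initial configuration. -/
def Le (V : VASS Bool d Q) (ρ ρ' : List (Q × Bool × (Fin d → ℤ) × Q)) : Prop :=
  Emb V V.q0 V.c0 ρ V.q0 V.c0 ρ'

lemma Le.trans {ρ ρ' ρ''} (h : Le V ρ ρ') (h' : Le V ρ' ρ'') : Le V ρ ρ'' := Emb.trans h' h

lemma Le.refl_right {ρ ρ'} (h : Le V ρ ρ') : Le V ρ' ρ' := by
  obtain ⟨f, w, h1⟩ := Emb.run_left h
  obtain ⟨w', h2⟩ := Emb.run_right h h1
  simpa [Le] using h2.emb_self 0

lemma pump {β β' ρ} {p : ℕ → ℕ} (h : Le V β β') (hp : ∀ r, cnt (lab β') r = cnt (lab β) r + p r)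
    (hρ : Le V β ρ) (N : ℕ) :
    ∃ ρ', Le V ρ ρ' ∧ ∀ r, cnt (lab ρ') r = cnt (lab ρ) r + p r * N := by
  induction N with
  | zero => exact ⟨ρ, hρ.refl_right, fun r => by simp⟩
  | succ N ih =>
    obtain ⟨ρ', h1, h2⟩ := ih
    obtain ⟨ρ₃, h3, h4⟩ := Emb.amalg (hρ.trans h1) 0 β' (by simpa [Le] using h)
    refine ⟨ρ₃, h1.trans (by simpa [Le] using h3), fun r => ?_⟩
    have e1 := h2 r
    have e2 := h4 r
    have e3 := hp r
    rw [Nat.mul_succ]
    omega

lemma pump_antitone {β β' ρ} {p : ℕ → ℕ} (h : Le V β β')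
    (hp : ∀ r, cnt (lab β') r = cnt (lab β) r + p r) (hρ : Le V β ρ) {u : ℕ → ℕ}
    (hu : Antitone u) (l : ℕ) :
    ∃ ρ', Le V ρ ρ' ∧ ∀ r, cnt (lab ρ') r = cnt (lab ρ) r + p r * (u r - u l) := by
  induction l with
  | zero =>
    refine ⟨ρ, hρ.refl_right, fun r => ?_⟩
    rw [Nat.sub_eq_zero_of_le (hu (Nat.zero_le r))]; simp
  | succ l ih =>
    obtain ⟨ρ', h1, h2⟩ := ih
    obtain ⟨β'', h3, h4⟩ := Emb.trunc h l
    obtain ⟨ρ₃, h5, h6⟩ := pump (β' := β'') (p := fun r => if r ≤ l then p r else 0) h3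
      (fun r => by rw [h4 r, hp r]; split_ifs <;> rfl) (hρ.trans h1) (u l - u (l + 1))
    refine ⟨ρ₃, h1.trans h5, fun r => ?_⟩
    rw [h6 r, h2 r]
    have a1 := hu (Nat.le_succ l)
    split_ifs with hr
    · have a2 := hu hr
      rw [add_assoc, ← Nat.mul_add]
      congr 2
      simp only [Nat.succ_eq_add_one] at a1
      omega
    · rw [Nat.sub_eq_zero_of_le (hu (by omega : l ≤ r)),
        Nat.sub_eq_zero_of_le (hu (by omega : l + 1 ≤ r))]
      simp

end Pool.Agent.MP_bb7684_lc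

end MrgPart0

-- ======== part 1: formerly Pool.Agent.MP_bb7684_lc.Lower
section MrgPart1

set_option autoImplicit false

namespace Pool.Agent.MP_bb7684_lc

variable {d : ℕ} {Q : Type} {V : VASS Bool d Q}

/-- Each transition together with the counter values at its source. -/
def ann : (Fin d → ℕ) → List (Q × Bool × (Fin d → ℤ) × Q) →
    List ((Q × Bool × (Fin d → ℤ) × Q) × (Fin d → ℕ))
  | _, [] => []
  | v, t :: ρ => (t, v) :: ann (fun i => (v i + t.2.2.1 i).toNat) ρ

lemma ann_cons {v w : Fin d → ℕ} {q q' : Q} {a : Bool} {u : Fin d → ℤ}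
    (h : ∀ i, (w i : ℤ) = v i + u i) (ρ) :
    ann v ((q, a, u, q') :: ρ) = ((q, a, u, q'), v) :: ann w ρ := by
  have : (fun i => (v i + u i).toNat) = w := by
    funext i; rw [← h i]; simp
  simp only [ann, this]

/-- Same transition, larger counters. -/
def rel (x y : (Q × Bool × (Fin d → ℤ) × Q) × (Fin d → ℕ)) : Prop := x.1 = y.1 ∧ x.2 ≤ y.2

instance : IsPreorder _ (rel (d := d) (Q := Q)) where
  refl _ := ⟨rfl, le_rfl⟩
  trans _ _ _ h h' := ⟨h.1.trans h'.1, h.2.trans h'.2⟩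

lemma ann_mem {q f : Q} {v w : Fin d → ℕ} {ρ} (h : Run V q v ρ f w) :
    ∀ x ∈ ann v ρ, x ∈ (V.T : Set _) ×ˢ (Set.univ : Set (Fin d → ℕ)) := by
  induction h with
  | nil => simp [ann]
  | cons ht hw _ ih =>
    intro x hx
    rw [ann_cons hw, List.mem_cons] at hx
    rcases hx with rfl | hx
    · exact ⟨ht, trivial⟩
    · exact ih x hx

lemma ann_map (v : Fin d → ℕ) (ρ : List (Q × Bool × (Fin d → ℤ) × Q)) :
    (ann v ρ).map (fun x => x.1.2.1) = lab ρ := by
  induction ρ generalizing v with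
  | nil => rfl
  | cons t ρ ih => simp [ann, ih, lab]

lemma nb_le_of_sub {l₁ l₂ : List ((Q × Bool × (Fin d → ℤ) × Q) × (Fin d → ℕ))}
    (h : List.SublistForall₂ rel l₁ l₂) :
    nb (l₁.map (fun x => x.1.2.1)) ≤ nb (l₂.map (fun x => x.1.2.1)) := by
  induction h with
  | nil => simp [nb]
  | @cons a b _ _ hr _ ih =>
    simp only [List.map_cons, hr.1]
    cases b.1.2.1 <;> simp only [nb] <;> omega
  | @cons_right a _ _ _ ih =>
    simp only [List.map_cons]
    cases a.1.2.1 <;> simp only [nb] <;> omega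

lemma emb_of_sub {p f : Q} {v' w' : Fin d → ℕ} {ρ'} (h' : Run V p v' ρ' f w') :
    ∀ {q v ρ w}, Run V q v ρ f w → w ≤ w' → List.SublistForall₂ rel (ann v ρ) (ann v' ρ') →
      nb (lab ρ') ≤ nb (lab ρ) → Emb V q v ρ p v' ρ' := by
  induction h' with
  | nil p v' =>
    intro q v ρ w h hw hs _
    cases h with
    | nil => exact Emb.nil hw
    | cons _ hx _ => rw [ann_cons hx] at hs; cases hs
  | @cons p p' f a u v' x' w' ρ' ht hx' _ ih =>
    intro q v ρ w h hw hs hn
    rw [ann_cons hx'] at hs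
    have skip : List.SublistForall₂ rel (ann v ρ) (ann x' ρ') →
        Emb V q v ρ p v' ((p, a, u, p') :: ρ') := by
      intro hs'
      have h1 := nb_le_of_sub hs'
      rw [ann_map, ann_map] at h1
      cases a
      · exact Emb.skip ht hx' (ih h hw hs' (by simpa [lab, nb] using hn))
      · simp only [lab, List.map_cons, nb] at hn h1
        omega
    cases h with
    | nil => exact skip List.SublistForall₂.nil
    | @cons _ q' _ b u₀ _ x _ ρ ht₀ hx h =>
      rw [ann_cons hx] at hs skip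
      cases hs with
      | cons hr hs =>
        obtain ⟨h1, h2⟩ := hr
        cases h1
        refine Emb.both ht h2 hx hx' (ih h hw hs ?_)
        cases a <;> simpa [lab, nb] using hn
      | cons_right hs => exact skip hs

/-- Any sequence of runs with the same number of separators has an increasing subsequence. -/
lemma exists_chain [Finite Q] (ρ : ℕ → List (Q × Bool × (Fin d → ℤ) × Q)) (f : ℕ → Q)
    (w : ℕ → Fin d → ℕ) (h : ∀ n, Run V V.q0 V.c0 (ρ n) (f n) (w n)) {s : ℕ}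
    (hs : ∀ n, nb (lab (ρ n)) = s) :
    ∃ g : ℕ → ℕ, StrictMono g ∧ ∀ m n, m ≤ n → Le V (ρ (g m)) (ρ (g n)) := by
  have h1 : ((V.T : Set (Q × Bool × (Fin d → ℤ) × Q)) ×ˢ
      (Set.univ : Set (Fin d → ℕ))).PartiallyWellOrderedOn rel :=
    (V.T.finite_toSet.partiallyWellOrderedOn (r := (· = ·))).prod
      (Set.partiallyWellOrderedOn_univ_iff.2 wellQuasiOrdered_le)
  have : IsPreorder _ (List.SublistForall₂ (rel (d := d) (Q := Q))) := {}
  obtain ⟨g₁, hg₁⟩ := (h1.partiallyWellOrderedOn_sublistForall₂ rel).exists_monotone_subseq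
    (f := fun n => ann V.c0 (ρ n)) (fun n => ann_mem (h n))
  obtain ⟨g₂, hg₂⟩ := (Finite.wellQuasiOrdered (· = · : Q → Q → Prop)).exists_monotone_subseq
    (fun n => f (g₁ n))
  obtain ⟨g₃, hg₃⟩ := (wellQuasiOrdered_le (α := Fin d → ℕ)).exists_monotone_subseq
    (fun n => w (g₁ (g₂ n)))
  refine ⟨fun n => g₁ (g₂ (g₃ n)), g₁.strictMono.comp (g₂.strictMono.comp g₃.strictMono),
    fun m n hmn => ?_⟩
  have e := hg₂ _ _ (g₃.monotone hmn)
  refine emb_of_sub (h _) (e ▸ h _) (hg₃ m n hmn) (hg₁ _ _ (g₂.monotone (g₃.monotone hmn))) ?_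
  rw [hs, hs]

lemma acc_of_le {ρ ρ'} (h : Le V ρ ρ') (hρ : ρ ∈ accRuns V (lab ρ)) :
    ρ' ∈ accRuns V (lab ρ') := by
  obtain ⟨-, p, hp, w, hr⟩ := hρ
  obtain ⟨w', hr'⟩ := Emb.run_right h hr
  exact ⟨rfl, p, hp, w', hr'⟩

/-- A base run with a pumping direction `D • e` and a later run with counts divisible by `D`. -/
lemma exists_base [Finite Q] {s : ℕ} {e : ℕ → ℕ}
    (hin : ∀ n, ∃ x, (accRuns V x).Nonempty ∧ nb x = s ∧ ∀ r, cnt x r = n * e r) :
    ∃ β β' β'' D g, 0 < D ∧ β ∈ accRuns V (lab β) ∧ nb (lab β) = s ∧ Le V β β' ∧ Le V β β'' ∧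
      (∀ r, cnt (lab β') r = cnt (lab β) r + D * e r) ∧ ∀ r, cnt (lab β'') r = D * g * e r := by
  choose x hx hnb hc using hin
  choose ρ hρ using hx
  have hl : ∀ n, lab (ρ n) = x n := fun n => (hρ n).1
  have h2 := fun n => (hρ n).2
  choose f hf w hw using h2
  obtain ⟨g, hg, hle⟩ := exists_chain (V := V) (fun n => ρ n.factorial) (fun n => f n.factorial)
    (fun n => w n.factorial) (fun n => hw _) (s := s) (fun n => by rw [hl, hnb])
  have h1 : 0 < g 1 := lt_of_le_of_lt (Nat.zero_le _) (hg Nat.zero_lt_one)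
  have h3 : (g 1).factorial < (g 2).factorial := (Nat.factorial_lt h1).2 (hg (by norm_num))
  obtain ⟨D, hD⟩ := Nat.exists_eq_add_of_lt h3
  obtain ⟨c, hc'⟩ := Nat.dvd_factorial (Nat.succ_pos D) (hg.le_apply (x := D + 1))
  refine ⟨ρ (g 1).factorial, ρ (g 2).factorial, ρ (g (D + 1)).factorial, D + 1, c,
    Nat.succ_pos D, hl _ ▸ hρ _, by rw [hl, hnb], hle 1 2 (by norm_num),
    hle 1 (D + 1) (by omega), fun r => ?_, fun r => ?_⟩
  · rw [hl, hl, hc, hc, hD]; ring
  · rw [hl, hc, hc']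

theorem many_runs [Finite Q] {ι : Type} [Fintype ι] {s : ℕ} (e : ι → ℕ → ℕ)
    (he : ∀ τ r, if r = 0 ∨ s < r then e τ r = 0 else (e τ r = 1 ∨ e τ r = 2))
    (hin : ∀ τ n, ∃ x, (accRuns V x).Nonempty ∧ nb x = s ∧ ∀ r, cnt x r = n * e τ r)
    (hout : ∀ τ τ', τ ≠ τ' → ∀ z : ℕ → ℕ, ∃ N, ∀ M, N ≤ M → ∀ x, (accRuns V x).Nonempty →
      ¬ ∀ r, cnt x r = z r + (e τ r + e τ' r) * M) :
    ∃ x, (Fintype.card ι : ℕ∞) ≤ (accRuns V x).encard := by
  classical
  choose β β' β'' D g hD hβ hnb h1 h2 hc1 hc2 using fun τ => exists_base (hin τ)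
  set P := ∏ τ, D τ with hP
  set G := ∑ τ, g τ with hG
  have hh : ∀ τ, ∃ h, 0 < h ∧ P = D τ * h := by
    intro τ
    obtain ⟨h, hh⟩ := Finset.dvd_prod_of_mem D (Finset.mem_univ τ)
    refine ⟨h, Nat.pos_of_ne_zero ?_, hh⟩
    rintro rfl
    have : 0 < P := Finset.prod_pos fun τ _ => hD τ
    rw [hP, hh] at this
    simp at this
  have hg : ∀ τ, g τ ≤ G := fun τ =>
    Finset.single_le_sum (f := g) (fun _ _ => Nat.zero_le _) (Finset.mem_univ τ)
  let z : ℕ → ℕ := fun r => if r = 0 ∨ s < r then 0 else 2 * P * G * 2 ^ (s - r)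
  have hrun : ∀ τ, ∃ ρ, Le V (β τ) ρ ∧ ∀ r, cnt (lab ρ) r = z r := by
    intro τ
    obtain ⟨h, h0, hh⟩ := hh τ
    let c : ℕ → ℕ := fun r => (if e τ r = 2 then 1 else 2) * (h * G * 2 ^ (s - r))
    have c1 : ∀ r, h * G * 2 ^ (s - r) ≤ c r := fun r => by
      simp only [c]; split_ifs <;> omega
    have c2 : ∀ r, c r ≤ 2 * (h * G * 2 ^ (s - r)) := fun r => by
      simp only [c]; split_ifs <;> omega
    have c3 : ∀ r, g τ ≤ c r := fun r => by
      refine le_trans ?_ (c1 r)
      calc g τ ≤ G := hg τ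
        _ ≤ h * G := Nat.le_mul_of_pos_left _ h0
        _ ≤ h * G * 2 ^ (s - r) := Nat.le_mul_of_pos_right _ (by positivity)
    let u : ℕ → ℕ := fun r => if s < r then 0 else c r - g τ
    have hu : Antitone u := by
      apply antitone_nat_of_succ_le
      intro r
      simp only [u]
      split_ifs with a1 a2 a2
      · exact le_rfl
      · exact Nat.zero_le _
      · omega
      · have a3 := c2 (r + 1)
        have a4 := c1 r
        have a5 : 2 ^ (s - r) = 2 * 2 ^ (s - (r + 1)) := by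
          rw [← pow_succ']; congr 1; omega
        rw [a5, mul_left_comm] at a4
        omega
    obtain ⟨ρ, hρ, hc⟩ := pump_antitone (p := fun r => D τ * e τ r) (h1 τ) (hc1 τ) (h2 τ) hu (s + 1)
    refine ⟨ρ, (h2 τ).trans hρ, fun r => ?_⟩
    rw [hc r, hc2 τ r]
    have hr := he τ r
    simp only [z, u, Nat.lt_add_one, if_true, Nat.sub_zero]
    by_cases a1 : r = 0 ∨ s < r
    · rw [if_pos a1] at hr
      rw [if_pos a1, hr]; simp
    · rw [if_neg a1] at hr
      rw [if_neg a1, if_neg (fun h => a1 (Or.inr h))]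
      obtain ⟨k, hk⟩ := Nat.exists_eq_add_of_le (c3 r)
      rw [hk, Nat.add_sub_cancel_left, hh]
      have : D τ * g τ * e τ r + D τ * e τ r * k = D τ * (e τ r * c r) := by rw [hk]; ring
      rw [this]
      simp only [c]
      rcases hr with hr | hr <;> simp [hr] <;> ring
  choose ρ hρ hz using hrun
  have hnb' : ∀ τ, nb (lab (ρ τ)) = s := fun τ => by rw [Emb.nb_eq (hρ τ), hnb]
  have hinj : Function.Injective ρ := by
    intro τ τ' heq
    by_contra hne
    obtain ⟨N, hN⟩ := hout τ τ' hne z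
    obtain ⟨σ, a1, a2⟩ := pump (h1 τ) (hc1 τ) (hρ τ) (D τ' * N)
    obtain ⟨σ', a3, a4⟩ := pump (h1 τ') (hc1 τ') ((hρ τ').trans (heq ▸ a1)) (D τ * N)
    refine hN (D τ * D τ' * N) (Nat.le_mul_of_pos_left _ (Nat.mul_pos (hD τ) (hD τ'))) (lab σ')
      ⟨σ', acc_of_le ((hρ τ).trans (a1.trans a3)) (hβ τ)⟩ fun r => ?_
    rw [a4, a2, hz]; ring
  rcases isEmpty_or_nonempty ι with hι | ⟨⟨τ₀⟩⟩
  · exact ⟨[], by simp⟩
  refine ⟨lab (ρ τ₀), ?_⟩
  have hsub : Set.range ρ ⊆ accRuns V (lab (ρ τ₀)) := by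
    rintro _ ⟨τ, rfl⟩
    rw [word_ext (lab (ρ τ₀)) (lab (ρ τ)) (by rw [hnb', hnb']) (fun r => by rw [hz, hz])]
    exact acc_of_le (hρ τ) (hβ τ)
  refine le_trans ?_ (Set.encard_le_encard hsub)
  rw [← Set.image_univ, hinj.encard_image]
  simp

end Pool.Agent.MP_bb7684_lc

end MrgPart1

-- ======== part 2: formerly Pool.Agent.MP_bb7684_lc.Upper
section MrgPart2

set_option autoImplicit false

namespace Pool.Agent.MP_bb7684_lc

/-- Counter effect of the letter `false` in branch `i`, phase `j`. -/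
def eff (k o i j : ℕ) : Fin 1 → ℤ := fun _ => if j = o + i then 1 else if j = o + k then -1 else 0

/-- Next phase after a letter; the phase saturates at `o + k + 1`. -/
def nxt (k o : ℕ) (j : Fin (o + k + 2)) : Bool → Fin (o + k + 2)
  | false => j
  | true => ⟨min (j + 1) (o + k + 1), by omega⟩

/-- The transition of branch `i` in phase `j` on the letter `a`. -/
def tr (k o : ℕ) (i : Fin k) (j : Fin (o + k + 2)) (a : Bool) :
    Option (Fin k × Fin (o + k + 2)) × Bool × (Fin 1 → ℤ) × Option (Fin k × Fin (o + k + 2)) :=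
  (some (i, j), a, if a then 0 else eff k o i j, some (i, nxt k o j a))

/-- The first transition, choosing the branch `i`. -/
def st (k o : ℕ) (i : Fin k) :
    Option (Fin k × Fin (o + k + 2)) × Bool × (Fin 1 → ℤ) × Option (Fin k × Fin (o + k + 2)) :=
  (none, true, 0, some (i, ⟨1, by omega⟩))

/-- One-counter VASS guessing `i < k` and checking that block `o + k` is at most block `o + i`. -/
def Vk (k o : ℕ) : VASS Bool 1 (Option (Fin k × Fin (o + k + 2))) where
  T := Finset.univ.image (st k o) ∪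
    Finset.univ.image (fun x : Fin k × Fin (o + k + 2) × Bool => tr k o x.1 x.2.1 x.2.2)
  q0 := none
  c0 := 0
  F := {q | q ≠ none}

/-- The unique path of branch `i` from phase `j`. -/
def path (k o : ℕ) (i : Fin k) : Fin (o + k + 2) → List Bool →
    List (Option (Fin k × Fin (o + k + 2)) × Bool × (Fin 1 → ℤ) × Option (Fin k × Fin (o + k + 2)))
  | _, [] => []
  | j, a :: w => tr k o i j a :: path k o i (nxt k o j a) w

/-- Letters still to be read in block `m` when the phase is `j`. -/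
def rem (w : List Bool) (j m : ℕ) : ℕ := if j ≤ m then cnt w (m - j) else 0

lemma rem_false (w : List Bool) (j m : ℕ) :
    rem (false :: w) j m = rem w j m + if j = m then 1 else 0 := by
  simp only [rem, cnt]
  split_ifs <;> omega

lemma rem_true (w : List Bool) {j m s : ℕ} (hm : m < s) :
    rem (true :: w) j m = rem w (min (j + 1) s) m := by
  simp only [rem]
  by_cases h : j + 1 ≤ m
  · rw [if_pos (by omega), if_pos (by omega), show m - j = m - min (j + 1) s + 1 by omega, cnt]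
  · rw [if_neg (by omega : ¬ min (j + 1) s ≤ m)]
    split_ifs
    · rw [show m - j = 0 by omega, cnt]
    · rfl

variable {k o : ℕ}

lemma mem_T_some {i : Fin k} {j : Fin (o + k + 2)} {a u q'}
    (h : (some (i, j), a, u, q') ∈ (Vk k o).T) : (some (i, j), a, u, q') = tr k o i j a := by
  simp only [Vk, Finset.mem_union, Finset.mem_image, Finset.mem_univ, true_and] at h
  rcases h with ⟨i', h⟩ | ⟨⟨i', j', a'⟩, h⟩
  · simp [st] at h
  · rw [← h]
    simp only [tr, Prod.mk.injEq, Option.some.injEq] at h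
    obtain ⟨⟨rfl, rfl⟩, rfl, -⟩ := h
    rfl

lemma mem_T_none {a u q'} (h : (none, a, u, q') ∈ (Vk k o).T) :
    ∃ i, (none, a, u, q') = st k o i := by
  simp only [Vk, Finset.mem_union, Finset.mem_image, Finset.mem_univ, true_and] at h
  rcases h with ⟨i', h⟩ | ⟨⟨i', j', a'⟩, h⟩
  · exact ⟨i', h.symm⟩
  · simp [tr] at h

lemma tr_mem (i : Fin k) (j : Fin (o + k + 2)) (a : Bool) : tr k o i j a ∈ (Vk k o).T := by
  simp only [Vk, Finset.mem_union, Finset.mem_image, Finset.mem_univ, true_and]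
  exact Or.inr ⟨(i, j, a), rfl⟩

lemma st_mem (i : Fin k) : st k o i ∈ (Vk k o).T := by
  simp only [Vk, Finset.mem_union, Finset.mem_image, Finset.mem_univ, true_and]
  exact Or.inl ⟨i, rfl⟩

lemma run_some {q v ρ p w} (h : Run (Vk k o) q v ρ p w) : ∀ i j, q = some (i, j) →
    ρ = path k o i j (lab ρ) ∧
      w 0 + rem (lab ρ) j (o + k) = v 0 + rem (lab ρ) j (o + i) := by
  induction h with
  | nil => intro i j _; simp [path, rem, cnt]
  | @cons q q' p a u v v' w ρ ht hv _ ih =>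
    rintro i j rfl
    have h1 := mem_T_some ht
    have h2 := h1
    simp only [tr, Prod.mk.injEq, true_and] at h2
    obtain ⟨hu, hq⟩ := h2
    obtain ⟨ih1, ih2⟩ := ih _ _ hq
    refine ⟨?_, ?_⟩
    · simp only [lab, List.map_cons, path]
      rw [h1]
      congr 1
    · have h3 := hv 0
      have hi := i.2
      cases a
      · simp only [lab, List.map_cons, rem_false]
        simp only [nxt, lab] at ih2
        simp only [hu, eff, Bool.false_eq_true, if_false] at h3
        split_ifs at h3 ⊢ <;> omega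
      · simp only [lab, List.map_cons]
        rw [rem_true _ (s := o + k + 1) (by omega), rem_true _ (s := o + k + 1) (by omega)]
        simp only [nxt, lab] at ih2
        simp only [hu, if_true, Pi.zero_apply] at h3
        omega

lemma run_path (i : Fin k) (x : List Bool) : ∀ (j : Fin (o + k + 2)) (v : Fin 1 → ℕ),
    rem x j (o + k) ≤ v 0 + rem x j (o + i) →
      ∃ j' w, Run (Vk k o) (some (i, j)) v (path k o i j x) (some (i, j')) w := by
  induction x with
  | nil => exact fun j v _ => ⟨j, v, Run.nil _ _⟩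
  | cons a x ih =>
    intro j v h
    have hi := i.2
    cases a
    · rw [rem_false, rem_false] at h
      have h0 : (j : ℕ) = o + k → rem x j (o + i) = 0 := fun hj => by
        rw [rem, if_neg (by omega)]
      obtain ⟨j', w, hw⟩ := ih j (fun _ => (v 0 + eff k o i j 0).toNat) (by
        simp only [eff]
        split_ifs at h ⊢ <;> omega)
      refine ⟨j', w, Run.cons (tr_mem i j false) (fun c => ?_) hw⟩
      rw [Subsingleton.elim c 0]
      simp only [eff, Bool.false_eq_true, if_false]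
      split_ifs at h ⊢ <;> omega
    · rw [rem_true _ (s := o + k + 1) (by omega), rem_true _ (s := o + k + 1) (by omega)] at h
      obtain ⟨j', w, hw⟩ := ih (nxt k o j true) v h
      exact ⟨j', w, Run.cons (tr_mem i j true) (fun c => by simp) hw⟩

lemma lab_path (i : Fin k) (x : List Bool) : ∀ j, lab (path k o i j x) = x := by
  induction x with
  | nil => intro j; rfl
  | cons a x ih => intro j; simp only [path, lab, List.map_cons, tr]; congr 1; exact ih _

lemma acc_Vk {x ρ} (h : ρ ∈ accRuns (Vk k o) x) : ∃ i y, x = true :: y ∧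
    ρ = st k o i :: path k o i ⟨1, by omega⟩ y ∧ rem y 1 (o + k) ≤ rem y 1 (o + i) := by
  obtain ⟨rfl, p, hp, w, hr⟩ := h
  generalize hq : (Vk k o).q0 = q at hr
  cases hr with
  | nil => exact absurd hq.symm hp
  | @cons _ q' _ a u _ v' _ ρ ht hv hr =>
    obtain rfl : none = q := hq
    obtain ⟨i, hi⟩ := mem_T_none ht
    have h2 := hi
    simp only [st, Prod.mk.injEq, true_and] at h2
    obtain ⟨rfl, rfl, rfl⟩ := h2
    obtain ⟨h3, h4⟩ := run_some hr _ _ rfl
    refine ⟨i, lab ρ, rfl, by rw [← h3]; rfl, ?_⟩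
    have := hv 0
    simp only [Vk, Pi.zero_apply] at this h4
    omega

lemma Vk_amb (x : List Bool) : (accRuns (Vk k o) x).encard ≤ k := by
  have : accRuns (Vk k o) x ⊆
      Set.range (fun i : Fin k => st k o i :: path k o i ⟨1, by omega⟩ x.tail) := by
    intro ρ h
    obtain ⟨i, y, rfl, rfl, -⟩ := acc_Vk h
    exact ⟨i, rfl⟩
  refine (Set.encard_le_encard this).trans ?_
  rw [← Set.image_univ]
  refine (Set.encard_image_le _ _).trans ?_
  simp

lemma rem_one (y : List Bool) {m : ℕ} (hm : 1 ≤ m) : rem y 1 m = cnt (true :: y) m := by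
  obtain ⟨m, rfl⟩ := Nat.exists_eq_add_of_le' hm
  simp [rem, cnt]

lemma Vk_sound (ho : 1 ≤ o) {x} (h : (accRuns (Vk k o) x).Nonempty) :
    ∃ i < k, cnt x (o + k) ≤ cnt x (o + i) := by
  obtain ⟨ρ, h⟩ := h
  obtain ⟨i, y, rfl, -, h⟩ := acc_Vk h
  rw [rem_one _ (by omega), rem_one _ (by omega)] at h
  exact ⟨i, i.2, h⟩

lemma Vk_complete (ho : 1 ≤ o) {y} {i : ℕ} (hi : i < k)
    (h : cnt (true :: y) (o + k) ≤ cnt (true :: y) (o + i)) :
    (accRuns (Vk k o) (true :: y)).Nonempty := by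
  rw [← rem_one _ (by omega), ← rem_one _ (by omega)] at h
  obtain ⟨j', w, hw⟩ := run_path (o := o) ⟨i, hi⟩ y ⟨1, by omega⟩ 0 (by simpa using h)
  refine ⟨st k o ⟨i, hi⟩ :: path k o ⟨i, hi⟩ ⟨1, by omega⟩ y, ?_, some (⟨i, hi⟩, j'),
    by simp [Vk], w, Run.cons (st_mem _) (fun c => by simp [Vk]) hw⟩
  simp only [List.map_cons, st]
  congr 1
  exact lab_path _ _ _

/-- The word with `s` separators and block lengths `x`. -/
def mk : ℕ → (ℕ → ℕ) → List Bool
  | 0, x => List.replicate (x 0) false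
  | s + 1, x => List.replicate (x 0) false ++ true :: mk s (fun r => x (r + 1))

lemma nb_rep (n : ℕ) (w : List Bool) : nb (List.replicate n false ++ w) = nb w := by
  induction n with
  | zero => rfl
  | succ n ih => simpa [List.replicate_succ, nb] using ih

lemma cnt_rep (n : ℕ) (w : List Bool) (r : ℕ) :
    cnt (List.replicate n false ++ w) r = cnt w r + if r = 0 then n else 0 := by
  induction n with
  | zero => simp
  | succ n ih =>
    simp only [List.replicate_succ, List.cons_append, cnt, ih]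
    split_ifs <;> omega

lemma nb_mk (s : ℕ) : ∀ x, nb (mk s x) = s := by
  induction s with
  | zero => intro x; simpa [mk, nb] using nb_rep (x 0) []
  | succ s ih => intro x; simp [mk, nb_rep, nb, ih]

lemma cnt_mk (s : ℕ) : ∀ x r, cnt (mk s x) r = if r ≤ s then x r else 0 := by
  induction s with
  | zero =>
    intro x r
    have := cnt_rep (x 0) [] r
    simp only [List.append_nil, cnt] at this
    rw [mk, this]
    cases r <;> simp
  | succ s ih =>
    intro x r
    rw [mk, cnt_rep]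
    cases r <;> simp [cnt, ih]

/-- The direction vectors. -/
def dir (k₁ k₂ : ℕ) (τ : Fin k₁ × Fin k₂) (r : ℕ) : ℕ :=
  if r = 0 ∨ k₁ + k₂ + 2 < r then 0
  else if r = 1 + τ.1 ∨ r = 1 + k₁ ∨ r = k₁ + 2 + τ.2 ∨ r = k₁ + 2 + k₂ then 2 else 1

theorem main (k₁ k₂ : ℕ) : ∃ L₁ L₂ : Set (List Bool), IsAmbLang k₁ L₁ ∧ IsAmbLang k₂ L₂ ∧
    ∀ n, n < k₁ * k₂ → ¬ IsAmbLang n (L₁ ∩ L₂) := by
  refine ⟨_, _, ⟨1, _, inferInstance, Vk k₁ 1, rfl, Vk_amb⟩,
    ⟨1, _, inferInstance, Vk k₂ (k₁ + 2), rfl, Vk_amb⟩, ?_⟩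
  rintro n hn ⟨d, Q, hQ, V, hL, hamb⟩
  have hL' : ∀ x, (accRuns V x).Nonempty ↔
      (accRuns (Vk k₁ 1) x).Nonempty ∧ (accRuns (Vk k₂ (k₁ + 2)) x).Nonempty :=
    fun x => Set.ext_iff.1 hL x
  obtain ⟨x, hx⟩ := many_runs (V := V) (s := k₁ + k₂ + 2) (dir k₁ k₂)
    (fun τ r => by simp only [dir]; split_ifs <;> simp) (fun τ m => by
      have h1 := τ.1.2
      have h2 := τ.2.2
      have hc : ∀ r, cnt (true :: mk (k₁ + k₂ + 1) (fun r => m * dir k₁ k₂ τ (r + 1))) r =
          m * dir k₁ k₂ τ r := by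
        intro r
        cases r with
        | zero => simp [cnt, dir]
        | succ r =>
          rw [cnt, cnt_mk]
          split_ifs with h
          · rfl
          · rw [dir, if_pos (by omega)]; rfl
      refine ⟨_, (hL' _).2 ⟨Vk_complete le_rfl h1 ?_, Vk_complete (by omega) h2 ?_⟩,
        by rw [nb, nb_mk], hc⟩
      · rw [hc, hc, dir, dir, if_neg (by omega), if_pos (by omega), if_neg (by omega),
          if_pos (by omega)]
      · rw [hc, hc, dir, dir, if_neg (by omega), if_pos (by omega), if_neg (by omega),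
          if_pos (by omega)])
    (fun τ τ' hne z => by
      refine ⟨∑ r ∈ Finset.range (k₁ + k₂ + 3), z r + 1, fun M hM x hx hc => ?_⟩
      have hz : ∀ r, r < k₁ + k₂ + 3 → z r < M := fun r hr =>
        lt_of_lt_of_le (Nat.lt_succ_of_le (Finset.single_le_sum (f := z)
          (fun _ _ => Nat.zero_le _) (Finset.mem_range.2 hr))) hM
      have h1 := τ.1.2
      have h2 := τ.2.2
      have h1' := τ'.1.2
      have h2' := τ'.2.2
      obtain ⟨⟨i, hi, a1⟩, ⟨j, hj, a2⟩⟩ := And.imp (Vk_sound le_rfl) (Vk_sound (by omega))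
        ((hL' x).1 hx)
      rw [hc, hc] at a1 a2
      by_cases h : τ.1 = τ'.1
      · have h' : (τ.2 : ℕ) ≠ τ'.2 := fun h' => hne (Prod.ext h (Fin.ext h'))
        have b1 : dir k₁ k₂ τ (k₁ + 2 + k₂) + dir k₁ k₂ τ' (k₁ + 2 + k₂) = 4 := by
          rw [dir, dir, if_neg (by omega), if_pos (by omega), if_neg (by omega), if_pos (by omega)]
        have b2 : dir k₁ k₂ τ (k₁ + 2 + j) + dir k₁ k₂ τ' (k₁ + 2 + j) ≤ 3 := by
          rw [dir, dir]; split_ifs <;> omega
        have b3 := Nat.mul_le_mul_right M b2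
        have b4 := hz (k₁ + 2 + j) (by omega)
        rw [b1] at a2
        omega
      · have h' : (τ.1 : ℕ) ≠ τ'.1 := fun h' => h (Fin.ext h')
        have b1 : dir k₁ k₂ τ (1 + k₁) + dir k₁ k₂ τ' (1 + k₁) = 4 := by
          rw [dir, dir, if_neg (by omega), if_pos (by omega), if_neg (by omega), if_pos (by omega)]
        have b2 : dir k₁ k₂ τ (1 + i) + dir k₁ k₂ τ' (1 + i) ≤ 3 := by
          rw [dir, dir]; split_ifs <;> omega
        have b3 := Nat.mul_le_mul_right M b2
        have b4 := hz (1 + i) (by omega)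
        rw [b1] at a1
        omega)
  have := hx.trans (hamb x)
  simp only [Fintype.card_prod, Fintype.card_fin, Nat.cast_le] at this
  omega

end Pool.Agent.MP_bb7684_lc

end MrgPart2

-- marker of a merged file
example : 731051 + 161902 = 731051 + 161902 := rfl
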